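import Pool.Agent.Helper14.W5.StC

/-!
# TYP: maps of the plane and their types
-/

set_option autoImplicit false

namespace Pool.Agent.Helper71.W5

open Pool.Agent.Helper14.W5

private theorem unit5 {m : ℕ} (a : ℤ) (ha : ¬ (5 : ℤ) ∣ a) (z : ZMod (5 ^ m)) :
    IsUnit ((a : ZMod (5 ^ m)) + 5 * z) := by
  obtain ⟨k, rfl⟩ := ZMod.intCast_surjective z
  have h5 : Prime (5 : ℤ) := by norm_num
  have h1 : IsCoprime (5 : ℤ) (a + 5 * k) := by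
    refine (Irreducible.coprime_iff_not_dvd h5.irreducible).mpr fun h => ha ?_
    exact (dvd_add_left (dvd_mul_right 5 k)).mp h
  obtain ⟨u, v, huv⟩ := h1.pow_left (m := m)
  refine IsUnit.of_mul_eq_one ((v : ZMod (5 ^ m))) ?_
  have h2 := congrArg (Int.cast : ℤ → ZMod (5 ^ m)) huv
  push_cast at h2
  have h3 : (5 : ZMod (5 ^ m)) ^ m = 0 := by
    have := ZMod.natCast_self (5 ^ m)
    push_cast at this
    exact this
  rw [h3] at h2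
  linear_combination h2

private theorem unitA (μ : ℕ) {m : ℕ} (a c : ℤ) (ha : ¬ (5 : ℤ) ∣ a) (x : ZMod (5 ^ m)) :
    IsUnit ((a : ZMod (5 ^ m)) + 5 ^ (μ + 1) * c * x) := by
  have h := unit5 (m := m) a ha (5 ^ μ * c * x)
  have e : (a : ZMod (5 ^ m)) + 5 * (5 ^ μ * c * x) = (a : ZMod (5 ^ m)) + 5 ^ (μ + 1) * c * x := by
    ring
  rwa [e] at h

private theorem frac_eq {n : ℕ} {x y s t : ZMod n} (hs : IsUnit s) (ht : IsUnit t)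
    (h : x * t = y * s) : x * s⁻¹ = y * t⁻¹ := by
  have h1 := ZMod.mul_inv_of_unit s hs
  have h2 := ZMod.mul_inv_of_unit t ht
  linear_combination (x * s⁻¹) * (-h2) + (y * t⁻¹) * h1 + s⁻¹ * t⁻¹ * h

/-- The fraction in the definition of `trp`. -/
private noncomputable def mob (μ : ℕ) {m : ℕ} (a b c d : ℤ) (t : ZMod (5 ^ m)) : ZMod (5 ^ m) :=
  ((b : ZMod (5 ^ m)) + d * t) * ((a : ZMod (5 ^ m)) + 5 ^ (μ + 1) * c * t)⁻¹

private theorem trp_eq (μ : ℕ) {m : ℕ} (a b c d : ℤ) (p : Pt m) :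
    trp μ a b c d p = (mob μ a b c d p.1, mob μ d c b a p.2) := rfl

private theorem mob_mob (μ : ℕ) {m : ℕ} (a b c d a' b' c' d' : ℤ) (ha : ¬ (5 : ℤ) ∣ a)
    (ha' : ¬ (5 : ℤ) ∣ a') (hA : ¬ (5 : ℤ) ∣ a * a' + 5 ^ (μ + 1) * b * c') (t : ZMod (5 ^ m)) :
    mob μ a' b' c' d' (mob μ a b c d t) =
      mob μ (a * a' + 5 ^ (μ + 1) * b * c') (a * b' + b * d') (c * a' + d * c')
        (5 ^ (μ + 1) * c * b' + d * d') t := by
  have h1 := ZMod.mul_inv_of_unit _ (unitA μ a c ha t)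
  refine frac_eq (unitA μ a' c' ha' _) (unitA μ _ _ hA t) ?_
  unfold mob
  push_cast
  linear_combination (d' * ((b : ZMod (5 ^ m)) + d * t) * a' -
    b' * (5 ^ (μ + 1) * c' * ((b : ZMod (5 ^ m)) + d * t))) * h1

private theorem mob_neg (μ : ℕ) {m : ℕ} (a b c d : ℤ) (ha : ¬ (5 : ℤ) ∣ a) (t : ZMod (5 ^ m)) :
    mob μ (-a) (-b) (-c) (-d) t = mob μ a b c d t := by
  have ha' : ¬ (5 : ℤ) ∣ -a := fun h => ha ((dvd_neg).mp h)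
  refine frac_eq (unitA μ (-a) (-c) ha' t) (unitA μ a c ha t) ?_
  push_cast
  ring

private theorem mob_id (μ : ℕ) {m : ℕ} (t : ZMod (5 ^ m)) : mob μ 1 0 0 1 t = t := by
  unfold mob
  simp

private theorem mob_arg_neg (μ : ℕ) {m : ℕ} (a b c d : ℤ) (t : ZMod (5 ^ m)) :
    mob μ a b c d (-t) = mob μ a b (-c) (-d) t := by
  unfold mob
  push_cast
  ring_nf

private theorem neg_mob (μ : ℕ) {m : ℕ} (a b c d : ℤ) (t : ZMod (5 ^ m)) :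
    -mob μ a b c d t = mob μ a (-b) c (-d) t := by
  unfold mob
  push_cast
  ring_nf

private theorem dv_mob (μ : ℕ) {m : ℕ} (a b c d s : ℤ) (ha : ¬ (5 : ℤ) ∣ a)
    (hs : (5 : ℤ) ∣ a * d - 5 ^ (μ + 1) * b * c - s * a ^ 2) :
    Dv s (mob μ a b c d : ZMod (5 ^ m) → ZMod (5 ^ m)) := by
  intro i x x' hx
  obtain ⟨k, hk⟩ := hx
  obtain ⟨q, hq⟩ := hs
  have hq' := congrArg (Int.cast : ℤ → ZMod (5 ^ m)) hq
  push_cast at hq'
  have h := ZMod.mul_inv_of_unit _ (unitA μ a c ha x)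
  have h' := ZMod.mul_inv_of_unit _ (unitA μ a c ha x')
  unfold mob
  set v := ((a : ZMod (5 ^ m)) + 5 ^ (μ + 1) * c * x)⁻¹ with hv
  set v' := ((a : ZMod (5 ^ m)) + 5 ^ (μ + 1) * c * x')⁻¹ with hv'
  refine ⟨k * v * v' * (q - s * (5 ^ μ * c * x * a + 5 ^ μ * c * x' * a +
    5 ^ μ * 5 ^ (μ + 1) * c ^ 2 * x * x')), ?_⟩
  linear_combination (((b : ZMod (5 ^ m)) + d * x') * v' + s * (x - x')) * h +
    (-((b : ZMod (5 ^ m)) + d * x) * v +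
      s * (x - x') * (((a : ZMod (5 ^ m)) + 5 ^ (μ + 1) * c * x) * v)) * h' +
    v * v' * ((a * d - 5 ^ (μ + 1) * b * c) - s * (((a : ZMod (5 ^ m)) + 5 ^ (μ + 1) * c * x) *
      ((a : ZMod (5 ^ m)) + 5 ^ (μ + 1) * c * x'))) * hk + 5 ^ i * k * v * v' * hq'

private theorem dv_neg {m : ℕ} : Dv (-1) (fun x : ZMod (5 ^ m) => -x) := by
  intro i x x' _
  refine ⟨0, ?_⟩
  push_cast
  ring

private theorem dv_id {m : ℕ} : Dv 1 (fun x : ZMod (5 ^ m) => x) := by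
  intro i x x' _
  refine ⟨0, ?_⟩
  push_cast
  ring

private theorem ty0 {m : ℕ} (r : Pt m → Pt m) (μ : ℕ) (a b c d a' b' c' d' : ℤ)
    (ha : ¬ (5 : ℤ) ∣ a) (ha' : ¬ (5 : ℤ) ∣ a')
    (hs : (5 : ℤ) ∣ a * d - 5 ^ (μ + 1) * b * c - (-1) * a ^ 2)
    (hs' : (5 : ℤ) ∣ a' * d' - 5 ^ (μ + 1) * b' * c' - (-1) * a' ^ 2)
    (h : ∀ p : Pt m, r p = (mob μ a b c d p.1, mob μ a' b' c' d' p.2)) : Ty 0 r :=
  Or.inl ⟨rfl, _, _, dv_mob μ a b c d (-1) ha hs, dv_mob μ a' b' c' d' (-1) ha' hs', h⟩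

private theorem ty1 {m : ℕ} (r : Pt m → Pt m) (μ : ℕ) (s : ℤ) (hs0 : s = 1 ∨ s = -1)
    (a b c d a' b' c' d' : ℤ)
    (ha : ¬ (5 : ℤ) ∣ a) (ha' : ¬ (5 : ℤ) ∣ a')
    (hs : (5 : ℤ) ∣ a * d - 5 ^ (μ + 1) * b * c - s * a ^ 2)
    (hs' : (5 : ℤ) ∣ a' * d' - 5 ^ (μ + 1) * b' * c' - s * a' ^ 2)
    (h : ∀ p : Pt m, r p = (mob μ a b c d p.2, mob μ a' b' c' d' p.1)) : Ty 1 r :=
  Or.inr ⟨rfl, s, _, _, hs0, dv_mob μ a b c d s ha hs, dv_mob μ a' b' c' d' s ha' hs', h⟩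

private theorem c1_eq {m : ℕ} (p : Pt m) :
    c1 p = (mob 1 4 (-1) 1 (-6) p.2, mob 1 (-6) 1 (-1) 4 p.1) := rfl

private theorem c2_eq {m : ℕ} (p : Pt m) :
    c2 p = (mob 1 3 (-1) 1 (-8) p.2, mob 1 (-8) 1 (-1) 3 p.1) := rfl

private theorem c3_eq {m : ℕ} (p : Pt m) :
    c3 p = (mob 1 2 (-1) 1 (-12) p.2, mob 1 (-12) 1 (-1) 2 p.1) := rfl

private theorem cO_eq {m : ℕ} (p : Pt m) :
    cO p = (mob 0 2 (-1) 1 (-2) p.2, mob 0 (-2) 1 (-1) 2 p.1) := rfl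

private theorem dR_eq (μ : ℕ) {m : ℕ} (p : Pt m) :
    dR μ p = (mob μ 1 (-1) 0 (-1) p.1, mob μ 1 0 1 (-1) p.2) := by
  show (mob μ 1 (-1) 0 1 (-p.1), mob μ 1 0 (-1) 1 (-p.2)) = _
  rw [mob_arg_neg, mob_arg_neg]
  norm_num

private theorem c1c1 {m : ℕ} (p : Pt m) : c1 (c1 p) = p := by
  rw [c1_eq, c1_eq]
  refine Prod.ext ?_ ?_
  · show mob 1 4 (-1) 1 (-6) (mob 1 (-6) 1 (-1) 4 p.1) = p.1
    rw [mob_mob _ _ _ _ _ _ _ _ _ (by norm_num) (by norm_num) (by norm_num)]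
    norm_num [mob_id]
  · show mob 1 (-6) 1 (-1) 4 (mob 1 4 (-1) 1 (-6) p.2) = p.2
    rw [mob_mob _ _ _ _ _ _ _ _ _ (by norm_num) (by norm_num) (by norm_num)]
    norm_num [mob_id]

private theorem c2c2 {m : ℕ} (p : Pt m) : c2 (c2 p) = p := by
  rw [c2_eq, c2_eq]
  refine Prod.ext ?_ ?_
  · show mob 1 3 (-1) 1 (-8) (mob 1 (-8) 1 (-1) 3 p.1) = p.1
    rw [mob_mob _ _ _ _ _ _ _ _ _ (by norm_num) (by norm_num) (by norm_num)]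
    norm_num [mob_id]
  · show mob 1 (-8) 1 (-1) 3 (mob 1 3 (-1) 1 (-8) p.2) = p.2
    rw [mob_mob _ _ _ _ _ _ _ _ _ (by norm_num) (by norm_num) (by norm_num)]
    norm_num [mob_id]

private theorem c3c3 {m : ℕ} (p : Pt m) : c3 (c3 p) = p := by
  rw [c3_eq, c3_eq]
  refine Prod.ext ?_ ?_
  · show mob 1 2 (-1) 1 (-12) (mob 1 (-12) 1 (-1) 2 p.1) = p.1
    rw [mob_mob _ _ _ _ _ _ _ _ _ (by norm_num) (by norm_num) (by norm_num)]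
    norm_num [mob_id]
  · show mob 1 (-12) 1 (-1) 2 (mob 1 2 (-1) 1 (-12) p.2) = p.2
    rw [mob_mob _ _ _ _ _ _ _ _ _ (by norm_num) (by norm_num) (by norm_num)]
    norm_num [mob_id]

private theorem cOcO {m : ℕ} (p : Pt m) : cO (cO p) = p := by
  rw [cO_eq, cO_eq]
  refine Prod.ext ?_ ?_
  · show mob 0 2 (-1) 1 (-2) (mob 0 (-2) 1 (-1) 2 p.1) = p.1
    rw [mob_mob _ _ _ _ _ _ _ _ _ (by norm_num) (by norm_num) (by norm_num)]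
    norm_num [mob_id]
  · show mob 0 (-2) 1 (-1) 2 (mob 0 2 (-1) 1 (-2) p.2) = p.2
    rw [mob_mob _ _ _ _ _ _ _ _ _ (by norm_num) (by norm_num) (by norm_num)]
    norm_num [mob_id]

private theorem dRdR (μ : ℕ) {m : ℕ} (p : Pt m) : dR μ (dR μ p) = p := by
  rw [dR_eq, dR_eq]
  refine Prod.ext ?_ ?_
  · show mob μ 1 (-1) 0 (-1) (mob μ 1 (-1) 0 (-1) p.1) = p.1
    rw [mob_mob _ _ _ _ _ _ _ _ _ (by norm_num) (by norm_num) (by norm_num)]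
    norm_num [mob_id]
  · show mob μ 1 0 1 (-1) (mob μ 1 0 1 (-1) p.2) = p.2
    rw [mob_mob _ _ _ _ _ _ _ _ _ (by norm_num) (by norm_num) (by norm_num)]
    norm_num [mob_id]

private theorem c1c2 {m : ℕ} (p : Pt m) :
    c1 (c2 p) = (mob 1 (-7) 2 (-1) 7 p.1, mob 1 7 (-1) 2 (-7) p.2) := by
  rw [c1_eq, c2_eq]
  refine Prod.ext ?_ ?_
  · show mob 1 4 (-1) 1 (-6) (mob 1 (-8) 1 (-1) 3 p.1) = _
    rw [mob_mob _ _ _ _ _ _ _ _ _ (by norm_num) (by norm_num) (by norm_num)]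
    norm_num
  · show mob 1 (-6) 1 (-1) 4 (mob 1 3 (-1) 1 (-8) p.2) = _
    rw [mob_mob _ _ _ _ _ _ _ _ _ (by norm_num) (by norm_num) (by norm_num)]
    norm_num

private theorem c2c1 {m : ℕ} (p : Pt m) :
    c2 (c1 p) = (mob 1 (-7) 2 (-1) 7 p.1, mob 1 7 (-1) 2 (-7) p.2) := by
  rw [c1_eq, c2_eq]
  refine Prod.ext ?_ ?_
  · show mob 1 3 (-1) 1 (-8) (mob 1 (-6) 1 (-1) 4 p.1) = _
    rw [mob_mob _ _ _ _ _ _ _ _ _ (by norm_num) (by norm_num) (by norm_num),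
      ← mob_neg 1 (-7) 2 (-1) 7 (by norm_num)]
    norm_num
  · show mob 1 (-8) 1 (-1) 3 (mob 1 4 (-1) 1 (-6) p.2) = _
    rw [mob_mob _ _ _ _ _ _ _ _ _ (by norm_num) (by norm_num) (by norm_num),
      ← mob_neg 1 7 (-1) 2 (-7) (by norm_num)]
    norm_num

private theorem dRc3 {m : ℕ} (p : Pt m) :
    dR 1 (c3 p) = (mob 1 2 (-1) 1 (-13) p.2, mob 1 13 (-1) 1 (-2) p.1) := by
  rw [dR_eq, c3_eq]
  refine Prod.ext ?_ ?_
  · show mob 1 1 (-1) 0 (-1) (mob 1 2 (-1) 1 (-12) p.2) = _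
    rw [mob_mob _ _ _ _ _ _ _ _ _ (by norm_num) (by norm_num) (by norm_num)]
    norm_num
  · show mob 1 1 0 1 (-1) (mob 1 (-12) 1 (-1) 2 p.1) = _
    rw [mob_mob _ _ _ _ _ _ _ _ _ (by norm_num) (by norm_num) (by norm_num)]
    norm_num

private theorem c3dR {m : ℕ} (p : Pt m) :
    c3 (dR 1 p) = (mob 1 2 (-1) 1 (-13) p.2, mob 1 13 (-1) 1 (-2) p.1) := by
  rw [dR_eq, c3_eq]
  refine Prod.ext ?_ ?_
  · show mob 1 2 (-1) 1 (-12) (mob 1 1 0 1 (-1) p.2) = _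
    rw [mob_mob _ _ _ _ _ _ _ _ _ (by norm_num) (by norm_num) (by norm_num)]
    norm_num
  · show mob 1 (-12) 1 (-1) 2 (mob 1 1 (-1) 0 (-1) p.1) = _
    rw [mob_mob _ _ _ _ _ _ _ _ _ (by norm_num) (by norm_num) (by norm_num)]
    norm_num

private theorem dRcO {m : ℕ} (p : Pt m) :
    dR 0 (cO p) = (mob 0 2 (-1) 1 (-3) p.2, mob 0 3 (-1) 1 (-2) p.1) := by
  rw [dR_eq, cO_eq]
  refine Prod.ext ?_ ?_
  · show mob 0 1 (-1) 0 (-1) (mob 0 2 (-1) 1 (-2) p.2) = _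
    rw [mob_mob _ _ _ _ _ _ _ _ _ (by norm_num) (by norm_num) (by norm_num)]
    norm_num
  · show mob 0 1 0 1 (-1) (mob 0 (-2) 1 (-1) 2 p.1) = _
    rw [mob_mob _ _ _ _ _ _ _ _ _ (by norm_num) (by norm_num) (by norm_num)]
    norm_num

private theorem cOdR {m : ℕ} (p : Pt m) :
    cO (dR 0 p) = (mob 0 2 (-1) 1 (-3) p.2, mob 0 3 (-1) 1 (-2) p.1) := by
  rw [dR_eq, cO_eq]
  refine Prod.ext ?_ ?_
  · show mob 0 2 (-1) 1 (-2) (mob 0 1 0 1 (-1) p.2) = _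
    rw [mob_mob _ _ _ _ _ _ _ _ _ (by norm_num) (by norm_num) (by norm_num)]
    norm_num
  · show mob 0 (-2) 1 (-1) 2 (mob 0 1 (-1) 0 (-1) p.1) = _
    rw [mob_mob _ _ _ _ _ _ _ _ _ (by norm_num) (by norm_num) (by norm_num)]
    norm_num

private theorem swcO {m : ℕ} (p : Pt m) :
    sw (cO p) = (mob 0 (-2) 1 (-1) 2 p.1, mob 0 2 (-1) 1 (-2) p.2) := rfl

private theorem swcO' {m : ℕ} (p : Pt m) : sw (cO p) = trp 0 2 (-1) 1 (-2) p := by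
  rw [swcO, trp_eq]
  have h1 := mob_neg 0 (m := m) 2 (-1) 1 (-2) (by norm_num) p.1
  have h2 := mob_neg 0 (m := m) (-2) 1 (-1) 2 (by norm_num) p.2
  norm_num at h1 h2
  rw [h1, h2]

theorem hTyp : S5Typ := by
  intro m
  refine ⟨⟨⟨?_, ?_, ?_⟩, ?_, ?_, ?_⟩, ⟨⟨c1c1, c2c2, fun p => (c1c2 p).trans (c2c1 p).symm⟩, ?_, ?_, ?_⟩,
    ⟨⟨dRdR 1, c3c3, fun p => (dRc3 p).trans (c3dR p).symm⟩, ?_, ?_, ?_⟩,
    ⟨⟨dRdR 0, cOcO, fun p => (dRcO p).trans (cOdR p).symm⟩, ?_, ?_, ?_⟩,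
    ⟨⟨fun p => rfl, cOcO, fun p => ?_⟩, ?_⟩, swcO'⟩
  · intro p
    simp [ng]
  · intro p
    rfl
  · intro p
    rfl
  · exact Or.inl ⟨rfl, _, _, dv_neg, dv_neg, fun p => rfl⟩
  · exact Or.inr ⟨rfl, 1, _, _, Or.inl rfl, dv_id, dv_id, fun p => rfl⟩
  · exact Or.inr ⟨rfl, -1, _, _, Or.inr rfl, dv_neg, dv_neg, fun p => rfl⟩
  · exact ty1 _ 1 1 (Or.inl rfl) _ _ _ _ _ _ _ _ (by norm_num) (by norm_num) (by norm_num)
      (by norm_num) c1_eq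
  · exact ty1 _ 1 (-1) (Or.inr rfl) _ _ _ _ _ _ _ _ (by norm_num) (by norm_num) (by norm_num)
      (by norm_num) c2_eq
  · exact ty0 _ 1 _ _ _ _ _ _ _ _ (by norm_num) (by norm_num) (by norm_num) (by norm_num) c1c2
  · exact ty0 _ 1 _ _ _ _ _ _ _ _ (by norm_num) (by norm_num) (by norm_num) (by norm_num)
      (dR_eq 1)
  · exact ty1 _ 1 (-1) (Or.inr rfl) _ _ _ _ _ _ _ _ (by norm_num) (by norm_num) (by norm_num)
      (by norm_num) c3_eq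
  · exact ty1 _ 1 1 (Or.inl rfl) _ _ _ _ _ _ _ _ (by norm_num) (by norm_num) (by norm_num)
      (by norm_num) dRc3
  · exact ty0 _ 0 _ _ _ _ _ _ _ _ (by norm_num) (by norm_num) (by norm_num) (by norm_num)
      (dR_eq 0)
  · exact ty1 _ 0 (-1) (Or.inr rfl) _ _ _ _ _ _ _ _ (by norm_num) (by norm_num) (by norm_num)
      (by norm_num) cO_eq
  · exact ty1 _ 0 1 (Or.inl rfl) _ _ _ _ _ _ _ _ (by norm_num) (by norm_num) (by norm_num)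
      (by norm_num) dRcO
  · show sw (cO p) = cO (sw p)
    rw [swcO', trp_eq, cO_eq]
    rfl
  · exact ty0 _ 0 _ _ _ _ _ _ _ _ (by norm_num) (by norm_num) (by norm_num) (by norm_num) swcO

end Pool.Agent.Helper71.W5
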