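import Pool.Agent.Helper14.W5.StB

/-!
# CORE from B3a, B3b, UB, LB
-/

set_option autoImplicit false

namespace Pool.Agent.Helper71.W5

open Pool.Agent.Helper14.CV Pool.Agent.Helper14.W5
open Pool.Agent.Helper28.WK (SymP Tw evw Ok)

private theorem Tw_congr (ls : List ℕ) (hls : Ok 5 ls) {G H : ℤ → ℤ → ℂ} (h : EqC G H) :
    EqC (Tw 1 ls G) (Tw 1 ls H) := by
  induction ls with
  | nil => exact h
  | cons l ls ih =>
    exact (ih fun x hx => hls x (List.mem_cons_of_mem _ hx)).Tl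
      (hls l List.mem_cons_self).1.pos 1

private theorem evLP_apply (G : ℤ → ℤ → ℂ) (ls : List ℕ) (hls : Ok 5 ls) :
    evLP 5 G ls = evw 1 ls G := if_pos hls

private theorem evLP_apply' (G : ℤ → ℤ → ℂ) (ls : List ℕ) (hls : ¬ Ok 5 ls) :
    evLP 5 G ls = 0 := if_neg hls

private theorem evLP_congr {G H : ℤ → ℤ → ℂ} (h : EqC G H) : evLP 5 G = evLP 5 H := by
  funext ls
  by_cases hls : Ok 5 ls
  · rw [evLP_apply _ _ hls, evLP_apply _ _ hls]
    exact (Tw_congr ls hls h).diff (Or.inl one_ne_zero) (Or.inr one_ne_zero)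
  · rw [evLP_apply' _ _ hls, evLP_apply' _ _ hls]

/-- The image of `ev` on the symbols of level `5^n`. -/
noncomputable def V (n : ℕ) : Submodule ℂ (List ℕ → ℂ) := (XSP 5 n).map (evLP 5)

/-- The image of `ev` on the new symbols of level `5^n`. -/
noncomputable def W (n : ℕ) : Submodule ℂ (List ℕ → ℂ) := (NSP 5 n).map (evLP 5)

theorem V_le_of_B3a (h : SPB3a) {n : ℕ} (hn : 3 ≤ n) : V n ≤ V (n - 1) ⊔ W n := by
  rintro x ⟨G, hG, rfl⟩
  obtain ⟨G0, G1, h0, h1, h2⟩ := h 5 (by norm_num) n G hn hG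
  refine Submodule.mem_sup.mpr ⟨(evLP 5) G0, ⟨G0, h0, rfl⟩, (evLP 5) G1, ⟨G1, h1, rfl⟩, ?_⟩
  funext ls
  show evLP 5 G0 ls + evLP 5 G1 ls = evLP 5 G ls
  by_cases hls : Ok 5 ls
  · rw [evLP_apply _ _ hls, evLP_apply _ _ hls, evLP_apply _ _ hls]
    exact (h2 ls hls).symm
  · rw [evLP_apply' _ _ hls, evLP_apply' _ _ hls, evLP_apply' _ _ hls, add_zero]

theorem W_bound (h : S5UB) {n : ℕ} (hn : 3 ≤ n) :
    Module.Finite ℂ (W n) ∧ Module.finrank ℂ (W n) ≤ dd5 n ∧
      ∀ G : ℤ → ℤ → ℂ, NewSymP 5 n G → (evLP 5) G = 0 → ¬ EqC G 0 →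
        Module.finrank ℂ (W n) + 1 ≤ dd5 n := by
  obtain ⟨Θ, hΘ⟩ := h n hn
  set f : NSP 5 n →ₗ[ℂ] (List ℕ → ℂ) := (evLP 5) ∘ₗ (NSP 5 n).subtype with hf
  have hker : LinearMap.ker Θ ≤ LinearMap.ker f := by
    intro G hG
    have h1 : EqC (G : ℤ → ℤ → ℂ) 0 := hΘ G (LinearMap.mem_ker.mp hG)
    refine LinearMap.mem_ker.mpr ?_
    show evLP 5 (G : ℤ → ℤ → ℂ) = 0
    rw [evLP_congr h1]
    exact map_zero (evLP 5)
  set g : LinearMap.range Θ →ₗ[ℂ] (List ℕ → ℂ) :=
    (Submodule.liftQ (LinearMap.ker Θ) f hker) ∘ₗ (Θ.quotKerEquivRange.symm).toLinearMap with hg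
  have hgΘ : ∀ G : NSP 5 n, g ⟨Θ G, LinearMap.mem_range_self Θ G⟩ = f G := by
    intro G
    have h1 : Θ.quotKerEquivRange.symm ⟨Θ G, LinearMap.mem_range_self Θ G⟩ =
        (LinearMap.ker Θ).mkQ G := by
      rw [LinearEquiv.symm_apply_eq]
      rfl
    show (Submodule.liftQ (LinearMap.ker Θ) f hker)
      (Θ.quotKerEquivRange.symm ⟨Θ G, LinearMap.mem_range_self Θ G⟩) = f G
    rw [h1]
    rfl
  have hrange : W n = LinearMap.range g := by
    ext x
    constructor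
    · rintro ⟨G, hG, rfl⟩
      exact ⟨⟨Θ ⟨G, hG⟩, LinearMap.mem_range_self Θ _⟩, hgΘ ⟨G, hG⟩⟩
    · rintro ⟨⟨y, G, rfl⟩, rfl⟩
      exact ⟨(G : ℤ → ℤ → ℂ), G.2, (hgΘ G).symm⟩
  have hfin : Module.Finite ℂ (W n) := by
    rw [hrange]
    infer_instance
  have hrk := LinearMap.finrank_range_add_finrank_ker g
  have hle : Module.finrank ℂ (LinearMap.range Θ) ≤ dd5 n := by
    have := Submodule.finrank_le (LinearMap.range Θ)
    simpa using this
  refine ⟨hfin, ?_, ?_⟩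
  · rw [hrange]
    omega
  · intro G hG he hne
    have h1 : Θ ⟨G, hG⟩ ≠ 0 := fun h0 => hne (hΘ ⟨G, hG⟩ h0)
    have h2 : (⟨Θ ⟨G, hG⟩, LinearMap.mem_range_self Θ _⟩ : LinearMap.range Θ) ∈
        LinearMap.ker g := by
      rw [LinearMap.mem_ker, hgΘ ⟨G, hG⟩]
      exact he
    have h5 : Nontrivial (LinearMap.ker g) := by
      refine ⟨⟨⟨_, h2⟩, 0, fun h0 => h1 ?_⟩⟩
      have h4 := congrArg Subtype.val h0
      exact congrArg Subtype.val h4
    have h3 : 0 < Module.finrank ℂ (LinearMap.ker g) :=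
      Module.finrank_pos (R := ℂ) (M := LinearMap.ker g)
    rw [hrange]
    omega

theorem V_bound (h3a : SPB3a) (h3b : S5B3b) (hUB : S5UB) (n : ℕ) (hn : 2 ≤ n) :
    Module.Finite ℂ (V n) ∧ Module.finrank ℂ (V n) ≤ DD5 n := by
  induction n, hn using Nat.le_induction with
  | base =>
    obtain ⟨e, he⟩ := h3b
    classical
    have hle : V 2 ≤ Submodule.span ℂ {fun ls : List ℕ => if Ok 5 ls then e ls else 0} := by
      rintro x ⟨G, hG, rfl⟩
      obtain ⟨x, hx⟩ := he G hG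
      refine Submodule.mem_span_singleton.mpr ⟨x, ?_⟩
      funext ls
      show x * (if Ok 5 ls then e ls else 0) = evLP 5 G ls
      by_cases hls : Ok 5 ls
      · rw [evLP_apply _ _ hls, if_pos hls]
        exact (hx ls hls).symm
      · rw [evLP_apply' _ _ hls, if_neg hls, mul_zero]
    have hfin : Module.Finite ℂ (V 2) := Submodule.finiteDimensional_of_le hle
    refine ⟨hfin, ?_⟩
    have h1 := Submodule.finrank_mono hle
    have h2 : Module.finrank ℂ (Submodule.span ℂ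
        {fun ls : List ℕ => if Ok 5 ls then e ls else 0}) ≤ 1 := by
      have := finrank_span_le_card (R := ℂ) 
        ({fun ls : List ℕ => if Ok 5 ls then e ls else 0} : Set (List ℕ → ℂ))
      simpa using this
    have h3 : 1 ≤ DD5 2 := Nat.le_add_right _ _
    omega
  | succ m hm ih =>
    obtain ⟨ih1, ih2⟩ := ih
    have hm3 : 3 ≤ m + 1 := by omega
    obtain ⟨w1, w2, _⟩ := W_bound hUB hm3
    have hle := V_le_of_B3a h3a hm3
    rw [Nat.add_sub_cancel] at hle
    have hfin : Module.Finite ℂ (V m ⊔ W (m + 1) : Submodule ℂ (List ℕ → ℂ)) :=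
      Submodule.finiteDimensional_sup _ _
    refine ⟨Submodule.finiteDimensional_of_le hle, ?_⟩
    have h1 := Submodule.finrank_mono hle
    have h2 := Submodule.finrank_add_le_finrank_add_finrank (V m) (W (m + 1))
    have h3 : DD5 (m + 1) = DD5 m + dd5 (m + 1) := by
      unfold DD5
      rw [Finset.sum_range_succ]
      ring
    omega

theorem hCoreOf : S5CoreOf := by
  intro h3a h3b hUB hLB n G hn hG hev
  by_contra hne
  have he : (evLP 5) G = 0 := by
    funext ls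
    by_cases hls : Ok 5 ls
    · rw [evLP_apply _ _ hls]
      exact hev ls hls
    · rw [evLP_apply' _ _ hls]
      rfl
  obtain ⟨w1, w2, w3⟩ := W_bound hUB (n := n) (by omega)
  have hw := w3 G hG he hne
  obtain ⟨v1, v2⟩ := V_bound h3a h3b hUB (n - 1) (by omega)
  have hle := V_le_of_B3a h3a (n := n) (by omega)
  have hfin : Module.Finite ℂ (V (n - 1) ⊔ W n : Submodule ℂ (List ℕ → ℂ)) :=
    Submodule.finiteDimensional_sup _ _
  have hfinV : Module.Finite ℂ (V n) := Submodule.finiteDimensional_of_le hle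
  have h1 := Submodule.finrank_mono hle
  have h2 := Submodule.finrank_add_le_finrank_add_finrank (V (n - 1)) (W n)
  have h3 : DD5 n = DD5 (n - 1) + dd5 n := by
    obtain ⟨m, rfl⟩ : ∃ m, n = m + 1 := ⟨n - 1, by omega⟩
    rw [Nat.add_sub_cancel]
    unfold DD5
    rw [Finset.sum_range_succ]
    ring
  obtain ⟨H, hH, hli⟩ := hLB n hn
  have hli' : LinearIndependent ℂ (fun k => (⟨evLP 5 (H k), ⟨H k, hH k, rfl⟩⟩ : V n)) := by
    refine LinearIndependent.of_comp (V n).subtype ?_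
    exact hli
  have h4 := hli'.fintype_card_le_finrank
  rw [Fintype.card_fin] at h4
  omega

end Pool.Agent.Helper71.W5
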