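import Pool.Agent.Helper14.W5.StD

/-!
# Module Hk3 of project W5: the rows of the third Hecke operator on the plane
-/

set_option autoImplicit false

namespace Pool.Agent.Helper71.W5

open Pool.Agent.Helper14.CV (Homog EqC act Tl)
open Pool.Agent.Helper28.WK (SymP)
open Pool.Agent.Helper14.W5

section

variable {R : Type} [AddCommGroup R] {r s : ℕ}

private lemma comp (u1 u2 w1 w2 v1 v2 : ℤ) (G : ℤ → ℤ → R) :
    (edge5 0 u1 u2 v1 v2 G : ZMod (5 ^ r) → ZMod (5 ^ s) → R) =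
      edge5 0 u1 u2 w1 w2 G + edge5 0 w1 w2 v1 v2 G := by
  funext x y
  simp only [Pi.add_apply, edge5]
  abel

private lemma comp' (u1 u2 w1 w2 v1 v2 : ℤ) (G : ℤ → ℤ → R) :
    (edge5 0 w1 w2 v1 v2 G : ZMod (5 ^ r) → ZMod (5 ^ s) → R) =
      edge5 0 u1 u2 v1 v2 G - edge5 0 u1 u2 w1 w2 G := by
  funext x y
  simp only [Pi.sub_apply, edge5]
  abel

private lemma comp'' (u1 u2 w1 w2 v1 v2 : ℤ) (G : ℤ → ℤ → R) :
    (edge5 0 u1 u2 w1 w2 G : ZMod (5 ^ r) → ZMod (5 ^ s) → R) =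
      edge5 0 u1 u2 v1 v2 G - edge5 0 w1 w2 v1 v2 G := by
  funext x y
  simp only [Pi.sub_apply, edge5]
  abel

private lemma rev (u1 u2 v1 v2 : ℤ) (G : ℤ → ℤ → R) :
    (edge5 0 u1 u2 v1 v2 G : ZMod (5 ^ r) → ZMod (5 ^ s) → R) = -edge5 0 v1 v2 u1 u2 G := by
  funext x y
  simp only [Pi.neg_apply, edge5]
  abel

private lemma nz (x : ZMod (5 ^ r)) (y : ZMod (5 ^ s)) {v1 v2 : ℤ} (hv : v1 ≠ 0 ∨ v2 ≠ 0) :
    v1 + 5 ^ 0 * ((x.val : ℕ) : ℤ) * v2 ≠ 0 ∨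
      5 * rY5 0 x y * v1 + (1 + 5 ^ (0 + 1) * ((x.val : ℕ) : ℤ) * rY5 0 x y) * v2 ≠ 0 := by
  by_contra h
  push Not at h
  obtain ⟨h1, h2⟩ := h
  have e2 : v2 = 0 := by linear_combination h2 - 5 * rY5 0 x y * h1
  have e1 : v1 = 0 := by rw [e2] at h1; linear_combination h1
  rcases hv with hv | hv
  · exact hv e1
  · exact hv e2

private lemma scaleV {G : ℤ → ℤ → R} (hH : Homog G) (k u1 u2 v1 v2 : ℤ) (hk : k ≠ 0)
    (hv : v1 ≠ 0 ∨ v2 ≠ 0) :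
    (edge5 0 u1 u2 (k * v1) (k * v2) G : ZMod (5 ^ r) → ZMod (5 ^ s) → R) =
      edge5 0 u1 u2 v1 v2 G := by
  funext x y
  simp only [edge5]
  congr 1
  rw [← hH k _ _ hk (nz x y hv)]
  congr 1 <;> ring

private lemma scaleU {G : ℤ → ℤ → R} (hH : Homog G) (k u1 u2 v1 v2 : ℤ) (hk : k ≠ 0)
    (hu : u1 ≠ 0 ∨ u2 ≠ 0) :
    (edge5 0 (k * u1) (k * u2) v1 v2 G : ZMod (5 ^ r) → ZMod (5 ^ s) → R) =
      edge5 0 u1 u2 v1 v2 G := by
  funext x y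
  simp only [edge5]
  congr 1
  rw [← hH k _ _ hk (nz x y hu)]
  congr 1 <;> ring

private lemma opL_nil {q q' : ℕ} (F : Fn5 q q') : opL [] F = 0 := rfl

private lemma opL_cons {q q' : ℕ} (k a b c d : ℤ) (L : List Tm) (F : Fn5 q q') :
    opL ((k, a, b, c, d) :: L) F = ((k : ℤ) : ZMod 5) • tr5 a b c d F + opL L F := by
  simp only [opL, List.map_cons, List.sum_cons, LinearMap.add_apply, LinearMap.smul_apply]
  rfl

end

theorem hHk3 (hf : S5HkF) (ht : S5Tre) (hm : S5Trm) : S5Hk3 := by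
  intro r s G hG i
  have hH := hG.1
  -- the Hecke formula
  have hmain : ∀ e : ℤ, (edge5 0 1 e 0 1 (Tl 3 (5 ^ r) G) : Fn5 (5 ^ r) (5 ^ s)) =
      tr5 1 0 0 3 (edge5 0 3 e 0 1 G) + (tr5 3 1 0 1 (edge5 0 (1 - e) (3 * e) (-1) 3 G) +
        (tr5 3 0 0 1 (edge5 0 1 (3 * e) 0 3 G) +
          tr5 3 (-1) 0 1 (edge5 0 (1 + e) (3 * e) 1 3 G))) := by
    intro e
    funext x y
    have h := hf (ZMod 5) inferInstance r s 3 G {-1, 0, 1} Nat.prime_three (by norm_num) hG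
      (by decide) (by decide) 1 e 0 1 (Or.inl one_ne_zero) (Or.inr one_ne_zero) x y
    rw [Finset.sum_insert (by decide), Finset.sum_insert (by decide), Finset.sum_singleton] at h
    simp only [Nat.cast_ofNat, mul_zero, add_zero, mul_one, neg_zero, zero_mul, zero_add, neg_neg,
      one_mul, neg_mul] at h
    exact h
  -- translated paths
  have hE : ∀ (a b c d u1 u2 v1 v2 : ℤ), a * d - 5 * b * c = 1 → (u1 ≠ 0 ∨ u2 ≠ 0) →
      (v1 ≠ 0 ∨ v2 ≠ 0) →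
      (edge5 0 (a * u1 + b * u2) (5 * c * u1 + d * u2) (a * v1 + b * v2)
        (5 * c * v1 + d * v2) G : Fn5 (5 ^ r) (5 ^ s)) = tr5 a b c d (edge5 0 u1 u2 v1 v2 G) := by
    intro a b c d u1 u2 v1 v2 h hu hv
    funext x y
    exact ht (ZMod 5) inferInstance r s G hG a b c d u1 u2 v1 v2 h hu hv x y
  have hM : ∀ (F : Fn5 (5 ^ r) (5 ^ s)) (a b c d a' b' c' d' : ℤ), ¬ 5 ∣ a → ¬ 5 ∣ d → ¬ 5 ∣ a' →
      ¬ 5 ∣ d' → tr5 a b c d (tr5 a' b' c' d' F) =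
      tr5 (a * a' + 5 * b * c') (a * b' + b * d') (c * a' + d * c') (5 * c * b' + d * d') F :=
    fun F => (hm (ZMod 5) r s F).1
  have hN : ∀ (F : Fn5 (5 ^ r) (5 ^ s)) (a b c d : ℤ), ¬ 5 ∣ a → ¬ 5 ∣ d →
      tr5 (-a) (-b) (-c) (-d) F = tr5 a b c d F := by
    intro F a b c d ha hd
    have h := (hm (ZMod 5) r s F).2.2 (-1) a b c d (by norm_num) ha hd
    simpa only [neg_mul, one_mul] using h
  have tadd : ∀ (a b c d : ℤ) (F F' : Fn5 (5 ^ r) (5 ^ s)),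
      tr5 a b c d (F + F') = tr5 a b c d F + tr5 a b c d F' := fun _ _ _ _ _ _ => rfl
  have tsub : ∀ (a b c d : ℤ) (F F' : Fn5 (5 ^ r) (5 ^ s)),
      tr5 a b c d (F - F') = tr5 a b c d F - tr5 a b c d F' := fun _ _ _ _ _ _ => rfl
  have tneg : ∀ (a b c d : ℤ) (F : Fn5 (5 ^ r) (5 ^ s)),
      tr5 a b c d (-F) = -tr5 a b c d F := fun _ _ _ _ _ => rfl
  have p0 : (edge5 0 1 0 0 1 G : Fn5 (5 ^ r) (5 ^ s)) = pf5 G 0 := rfl
  have p1 : (edge5 0 1 2 0 1 G : Fn5 (5 ^ r) (5 ^ s)) = pf5 G 1 := rfl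
  -- the path from zero to one
  have q1 : (edge5 0 1 1 0 1 G : Fn5 (5 ^ r) (5 ^ s)) = pf5 G 0 - tr5 1 1 0 1 (pf5 G 0) := by
    have h := hE 1 1 0 1 1 0 0 1 (by norm_num) (Or.inl one_ne_zero) (Or.inr one_ne_zero)
    norm_num at h
    rw [← p0, ← h]
    exact comp' 1 0 1 1 0 1 G
  -- the path from one half to one
  have qk : (edge5 0 1 1 1 2 G : Fn5 (5 ^ r) (5 ^ s)) =
      pf5 G 0 - tr5 1 1 0 1 (pf5 G 0) - pf5 G 1 := by
    rw [← q1, ← p1]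
    exact comp'' 1 1 1 2 0 1 G
  -- the path from zero to one third
  have q3 : (edge5 0 1 3 0 1 G : Fn5 (5 ^ r) (5 ^ s)) =
      tr5 2 (-1) 1 (-2) (pf5 G 0 - tr5 1 1 0 1 (pf5 G 0) - pf5 G 1) := by
    have h := hE 2 (-1) 1 (-2) 1 1 1 2 (by norm_num) (Or.inl one_ne_zero) (Or.inl one_ne_zero)
    norm_num at h
    rw [← qk, ← h]
  -- the path from zero to minus one third
  have q3' : (edge5 0 (-1) 3 0 1 G : Fn5 (5 ^ r) (5 ^ s)) = tr5 1 0 (-1) 1 (pf5 G 1) := by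
    have h := hE 1 0 (-1) 1 1 2 0 1 (by norm_num) (Or.inl one_ne_zero) (Or.inr one_ne_zero)
    norm_num at h
    rw [← p1, ← h]
    have h' := scaleU (r := r) (s := s) hH (-1) 1 (-3) 0 1 (by norm_num) (Or.inl one_ne_zero)
    norm_num at h'
    exact h'
  rw [Fin.sum_univ_two]
  have hpf : (pf5 (Tl 3 (5 ^ r) G) i : Fn5 (5 ^ r) (5 ^ s)) =
    edge5 0 1 (e5 i) 0 1 (Tl 3 (5 ^ r) G) := rfl
  rw [hpf, hmain]
  -- products of matrices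
  have c1 : ∀ F : Fn5 (5 ^ r) (5 ^ s), tr5 3 (-1) 0 1 (tr5 2 (-1) 1 (-2) F) =
      tr5 1 (-1) 1 (-2) F := by
    intro F
    rw [hM _ _ _ _ _ _ _ _ _ (by norm_num) (by norm_num) (by norm_num) (by norm_num)]
    norm_num
  have c2 : ∀ F : Fn5 (5 ^ r) (5 ^ s), tr5 1 (-1) 1 (-2) (tr5 1 1 0 1 F) = tr5 1 0 1 3 F := by
    intro F
    rw [hM _ _ _ _ _ _ _ _ _ (by norm_num) (by norm_num) (by norm_num) (by norm_num)]
    norm_num
  have c3 : ∀ F : Fn5 (5 ^ r) (5 ^ s), tr5 3 1 0 1 (tr5 1 0 (-1) 1 F) = tr5 2 (-1) 1 (-1) F := by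
    intro F
    rw [hM _ _ _ _ _ _ _ _ _ (by norm_num) (by norm_num) (by norm_num) (by norm_num),
      ← hN F 2 (-1) 1 (-1) (by norm_num) (by norm_num)]
    norm_num
  have c4 : ∀ F : Fn5 (5 ^ r) (5 ^ s), tr5 1 0 0 3 (tr5 1 1 0 1 F) = tr5 1 1 0 3 F := by
    intro F
    rw [hM _ _ _ _ _ _ _ _ _ (by norm_num) (by norm_num) (by norm_num) (by norm_num)]
    norm_num
  have c5 : ∀ F : Fn5 (5 ^ r) (5 ^ s), tr5 3 0 0 1 (tr5 1 0 1 1 F) = tr5 3 0 1 1 F := by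
    intro F
    rw [hM _ _ _ _ _ _ _ _ _ (by norm_num) (by norm_num) (by norm_num) (by norm_num)]
    norm_num
  have c6 : ∀ F : Fn5 (5 ^ r) (5 ^ s), tr5 3 0 1 1 (tr5 1 1 0 1 F) = tr5 3 3 1 6 F := by
    intro F
    rw [hM _ _ _ _ _ _ _ _ _ (by norm_num) (by norm_num) (by norm_num) (by norm_num)]
    norm_num
  have c7 : ∀ F : Fn5 (5 ^ r) (5 ^ s), tr5 3 1 0 1 (tr5 1 (-1) (-1) 6 F) =
      tr5 2 (-3) 1 (-6) F := by
    intro F
    rw [hM _ _ _ _ _ _ _ _ _ (by norm_num) (by norm_num) (by norm_num) (by norm_num),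
      ← hN F 2 (-3) 1 (-6) (by norm_num) (by norm_num)]
    norm_num
  have c8 : ∀ F : Fn5 (5 ^ r) (5 ^ s), tr5 2 (-3) 1 (-6) (tr5 1 1 0 1 F) =
      tr5 2 (-1) 1 (-1) F := by
    intro F
    rw [hM _ _ _ _ _ _ _ _ _ (by norm_num) (by norm_num) (by norm_num) (by norm_num)]
    norm_num
  fin_cases i
  · -- row 0
    have z : e5 (⟨0, by norm_num⟩ : Fin 2) = 0 := rfl
    rw [z]
    have a1 : (edge5 0 3 0 0 1 G : Fn5 (5 ^ r) (5 ^ s)) = pf5 G 0 := by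
      have h := scaleU (r := r) (s := s) hH 3 1 0 0 1 three_ne_zero (Or.inl one_ne_zero)
      norm_num at h
      rw [h, p0]
    have a2 : (edge5 0 1 0 (-1) 3 G : Fn5 (5 ^ r) (5 ^ s)) =
        pf5 G 0 - tr5 1 0 (-1) 1 (pf5 G 1) := by
      rw [← q3', ← p0]
      exact comp'' 1 0 (-1) 3 0 1 G
    have a3 : (edge5 0 1 0 0 3 G : Fn5 (5 ^ r) (5 ^ s)) = pf5 G 0 := by
      have h := scaleV (r := r) (s := s) hH 3 1 0 0 1 three_ne_zero (Or.inr one_ne_zero)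
      norm_num at h
      rw [h, p0]
    have a4 : (edge5 0 1 0 1 3 G : Fn5 (5 ^ r) (5 ^ s)) =
        pf5 G 0 - tr5 2 (-1) 1 (-2) (pf5 G 0 - tr5 1 1 0 1 (pf5 G 0) - pf5 G 1) := by
      rw [← q3, ← p0]
      exact comp'' 1 0 1 3 0 1 G
    norm_num
    rw [a1, a2, a3, a4, tsub, tsub, c1, c3, tsub, tsub, c2]
    simp only [T3L, opL_cons, opL_nil, Int.cast_one, Int.cast_neg, one_smul, neg_smul]
    abel
  · -- row 1
    have z : e5 (⟨1, by norm_num⟩ : Fin 2) = 2 := rfl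
    rw [z]
    have a1 : (edge5 0 3 2 0 1 G : Fn5 (5 ^ r) (5 ^ s)) =
        tr5 1 1 0 1 (pf5 G 1) + (pf5 G 0 - tr5 1 1 0 1 (pf5 G 0)) := by
      have h := hE 1 1 0 1 1 2 0 1 (by norm_num) (Or.inl one_ne_zero) (Or.inr one_ne_zero)
      norm_num at h
      rw [← q1, ← p1, ← h]
      exact comp 3 2 1 1 0 1 G
    have b6 : (edge5 0 (-1) 6 0 1 G : Fn5 (5 ^ r) (5 ^ s)) =
        -tr5 1 (-1) (-1) 6 (pf5 G 0 - tr5 1 1 0 1 (pf5 G 0)) := by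
      have h := hE 1 (-1) (-1) 6 1 1 0 1 (by norm_num) (Or.inl one_ne_zero) (Or.inr one_ne_zero)
      norm_num at h
      rw [← q1, ← h]
      exact rev (-1) 6 0 1 G
    have a2 : (edge5 0 (-1) 6 (-1) 3 G : Fn5 (5 ^ r) (5 ^ s)) =
        -tr5 1 (-1) (-1) 6 (pf5 G 0 - tr5 1 1 0 1 (pf5 G 0)) - tr5 1 0 (-1) 1 (pf5 G 1) := by
      rw [← b6, ← q3']
      exact comp'' (-1) 6 (-1) 3 0 1 G
    have a3 : (edge5 0 1 6 0 3 G : Fn5 (5 ^ r) (5 ^ s)) =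
        tr5 1 0 1 1 (pf5 G 0 - tr5 1 1 0 1 (pf5 G 0)) := by
      have h := scaleV (r := r) (s := s) hH 3 1 6 0 1 three_ne_zero (Or.inr one_ne_zero)
      have h' := hE 1 0 1 1 1 1 0 1 (by norm_num) (Or.inl one_ne_zero) (Or.inr one_ne_zero)
      norm_num at h h'
      rw [h, ← q1, ← h']
    have a4 : (edge5 0 3 6 1 3 G : Fn5 (5 ^ r) (5 ^ s)) =
        pf5 G 1 - tr5 2 (-1) 1 (-2) (pf5 G 0 - tr5 1 1 0 1 (pf5 G 0) - pf5 G 1) := by
      have h := scaleU (r := r) (s := s) hH 3 1 2 1 3 three_ne_zero (Or.inl one_ne_zero)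
      norm_num at h
      rw [h, ← q3, ← p1]
      exact comp'' 1 2 1 3 0 1 G
    norm_num
    rw [a1, a2, a3, a4, tadd, tsub, c4, c4, tsub, tneg, c7, tsub, c8, c3, c5, tsub, c6, tsub,
      c1, tsub, tsub, c2]
    simp only [T3L, opL_cons, opL_nil, Int.cast_one, Int.cast_neg, one_smul, neg_smul]
    abel

end Pool.Agent.Helper71.W5
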