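import Pool.Agent.Helper14.W5.StE

/-!
# Project W5, module Ks: step of the induction for the kernel of the values
-/

set_option autoImplicit false

namespace Pool.Agent.Helper71.W5

open Pool.Agent.Helper14.W5
open Pool.Agent.Helper14.CV (Homog EqC act Tl act_add act_sub act_smul act_neg act_act act_one)
open Pool.Agent.Helper28.WK (SymP Tw evw Ok)

/-- Linear operators on functions which respect equality up to constants. -/
private structure Op (L : (ℤ → ℤ → ℂ) → (ℤ → ℤ → ℂ)) : Prop where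
  add : ∀ G H, L (G + H) = L G + L H
  sub : ∀ G H, L (G - H) = L G - L H
  smul : ∀ (s : ℂ) (G), L (s • G) = s • L G
  cong : ∀ {G H}, EqC G H → EqC (L G) (L H)

private lemma Op.zero {L : (ℤ → ℤ → ℂ) → (ℤ → ℤ → ℂ)} (h : Op L) {G : ℤ → ℤ → ℂ}
    (hG : EqC G 0) : EqC (L G) 0 := by
  have h0 : L 0 = 0 := by
    have := h.smul 0 0
    rwa [zero_smul, zero_smul] at this
  have := h.cong hG
  rwa [h0] at this

private lemma EqC_sum (s : Finset ℕ) (F F' : ℕ → ℤ → ℤ → ℂ)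
    (h : ∀ i ∈ s, EqC (F i) (F' i)) : EqC (∑ i ∈ s, F i) (∑ i ∈ s, F' i) := by
  classical
  induction s using Finset.induction_on with
  | empty => simp only [Finset.sum_empty]; exact EqC.refl _
  | insert a s ha ih =>
    rw [Finset.sum_insert ha, Finset.sum_insert ha]
    exact (h a (Finset.mem_insert_self a s)).add
      (ih fun i hi => h i (Finset.mem_insert_of_mem hi))

private lemma op_act {a b c d : ℤ} (hd : a * d - b * c ≠ 0) : Op (act a b c d) where
  add G H := act_add a b c d G H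
  sub G H := act_sub a b c d G H
  smul s G := act_smul s a b c d G
  cong h := h.act hd

private lemma op_sum (s : Finset ℕ) (L : ℕ → (ℤ → ℤ → ℂ) → (ℤ → ℤ → ℂ)) (h : ∀ i ∈ s, Op (L i)) :
    Op (fun G => ∑ i ∈ s, L i G) where
  add G H := by
    rw [← Finset.sum_add_distrib]
    exact Finset.sum_congr rfl fun i hi => (h i hi).add G H
  sub G H := by
    rw [← Finset.sum_sub_distrib]
    exact Finset.sum_congr rfl fun i hi => (h i hi).sub G H
  smul x G := by
    rw [Finset.smul_sum]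
    exact Finset.sum_congr rfl fun i hi => (h i hi).smul x G
  cong hGH := EqC_sum s _ _ fun i hi => (h i hi).cong hGH

private lemma op_tS (p : ℕ) (hp : p.Prime) : Op (tS p) := by
  have h : Op (fun G => ∑ i ∈ Finset.range p, act (p : ℤ) (i : ℤ) 0 (p : ℤ) G) := by
    refine op_sum (Finset.range p) (fun i => act (p : ℤ) (i : ℤ) 0 (p : ℤ)) fun i _ => op_act ?_
    have : (p : ℤ) ≠ 0 := by exact_mod_cast hp.ne_zero
    rw [mul_zero, sub_zero]
    exact mul_ne_zero this this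
  exact h

private lemma op_sS (p n : ℕ) : Op (sS p n) := by
  have h : Op (fun G => ∑ i ∈ Finset.range p,
      act (1 : ℤ) (0 : ℤ) ((i : ℤ) * (p : ℤ) ^ (n - 1)) (1 : ℤ) G) := by
    refine op_sum (Finset.range p)
      (fun i => act (1 : ℤ) (0 : ℤ) ((i : ℤ) * (p : ℤ) ^ (n - 1)) (1 : ℤ)) fun i _ => op_act ?_
    norm_num
  exact h

/-- The average `A` of `G` satisfies `L (G - A) ≈ 0`. -/
private lemma proj {L : (ℤ → ℤ → ℂ) → (ℤ → ℤ → ℂ)} (h : Op L) {c : ℂ} (hc : c ≠ 0)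
    {G : ℤ → ℤ → ℂ} (hL : EqC (L (L G)) (c • L G)) : EqC (L (G - (1 / c) • L G)) 0 := by
  rw [h.sub, h.smul]
  have h1 := (EqC.refl (L G)).sub (hL.smul (1 / c))
  rwa [smul_smul, one_div_mul_cancel hc, one_smul, sub_self] at h1

/-- If `M` commutes with `L` (or intertwines it with `L'`), it preserves vanishing. -/
private lemma vanish {L L' M : (ℤ → ℤ → ℂ) → (ℤ → ℤ → ℂ)} (hM : Op M) {G : ℤ → ℤ → ℂ}
    (hc : EqC (L (M G)) (M (L' G))) (hG : EqC (L' G) 0) : EqC (L (M G)) 0 :=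
  hc.trans (hM.zero hG)

private lemma van_sub {L : (ℤ → ℤ → ℂ) → (ℤ → ℤ → ℂ)} (h : Op L) (s : ℂ) {G H : ℤ → ℤ → ℂ}
    (hG : EqC (L G) 0) (hH : EqC (L H) 0) : EqC (L (s • (G - H))) 0 := by
  rw [h.smul, h.sub]
  have := (hG.sub hH).smul s
  rwa [sub_zero, smul_zero] at this

private lemma van_add {L : (ℤ → ℤ → ℂ) → (ℤ → ℤ → ℂ)} (h : Op L) (s : ℂ) {G H : ℤ → ℤ → ℂ}
    (hG : EqC (L G) 0) (hH : EqC (L H) 0) : EqC (L (s • (G + H))) 0 := by
  rw [h.smul, h.add]
  have := (hG.add hH).smul s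
  rwa [add_zero, smul_zero] at this

private lemma SymP_sub {p r s : ℕ} {G H : ℤ → ℤ → ℂ} (h : SymP p r s G) (h' : SymP p r s H) :
    SymP p r s (G - H) := by
  rw [sub_eq_add_neg]
  exact SymP.add h (SymP.neg h')

private lemma evw_add (ls : List ℕ) (G H : ℤ → ℤ → ℂ) :
    evw 1 ls (G + H) = evw 1 ls G + evw 1 ls H := by
  simp only [evw, Tw_add, Pi.add_apply]
  ring

private lemma evw_smul (s : ℂ) (ls : List ℕ) (G : ℤ → ℤ → ℂ) :
    evw 1 ls (s • G) = s * evw 1 ls G := by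
  simp only [evw, Tw_smul, Pi.smul_apply, smul_eq_mul]
  ring

private lemma evw_sub (ls : List ℕ) (G H : ℤ → ℤ → ℂ) :
    evw 1 ls (G - H) = evw 1 ls G - evw 1 ls H := by
  have e : G - H = G + (-1 : ℂ) • H := by
    rw [neg_one_smul, sub_eq_add_neg]
  rw [e, evw_add, evw_smul]
  ring

private lemma Tw_congr' (p : ℕ) (ls : List ℕ) (hls : Ok p ls) {G H : ℤ → ℤ → ℂ} (h : EqC G H) :
    EqC (Tw 1 ls G) (Tw 1 ls H) := by
  induction ls with
  | nil => exact h
  | cons l ls ih =>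
    exact (ih fun x hx => hls x (List.mem_cons_of_mem _ hx)).Tl
      (hls l List.mem_cons_self).1.pos 1

private lemma evw_congr' (p : ℕ) (ls : List ℕ) (hls : Ok p ls) {G H : ℤ → ℤ → ℂ} (h : EqC G H) :
    evw 1 ls G = evw 1 ls H :=
  (Tw_congr' p ls hls h).diff (Or.inl one_ne_zero) (Or.inr one_ne_zero)

private lemma dwp {p : ℕ} (hp : p.Prime) (k : ℕ) : (0 : ℤ) * 0 - (-1) * (p : ℤ) ^ k ≠ 0 := by
  have hp0 : (p : ℤ) ≠ 0 := by exact_mod_cast hp.ne_zero
  have h1 : (p : ℤ) ^ k ≠ 0 := pow_ne_zero _ hp0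
  intro h
  apply h1
  linarith

/-- `W' W' = 1` -/
private lemma WW {p : ℕ} (hp : p.Prime) (k : ℕ) {x : ℤ → ℤ → ℂ} (hx : Homog x) :
    EqC (act 0 (-1) ((p : ℤ) ^ k) 0 (act 0 (-1) ((p : ℤ) ^ k) 0 x)) x := by
  have hp0 : (p : ℤ) ≠ 0 := by exact_mod_cast hp.ne_zero
  have h := hx.scale (a := 1) (b := 0) (c := 0) (d := 1) (-(p : ℤ) ^ k)
    (neg_ne_zero.2 (pow_ne_zero _ hp0)) (by norm_num)
  rw [act_one] at h
  have e : act 0 (-1) ((p : ℤ) ^ k) 0 (act 0 (-1) ((p : ℤ) ^ k) 0 x) =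
      act (-(p : ℤ) ^ k * 1) (-(p : ℤ) ^ k * 0) (-(p : ℤ) ^ k * 0) (-(p : ℤ) ^ k * 1) x := by
    rw [act_act]
    congr 1 <;> ring
  rw [e]
  exact h

/-- `* W' = W' *` -/
private lemma SW {p : ℕ} (hp : p.Prime) (k : ℕ) {x : ℤ → ℤ → ℂ} (hx : Homog x) :
    EqC (act (-1) 0 0 1 (act 0 (-1) ((p : ℤ) ^ k) 0 x))
      (act 0 (-1) ((p : ℤ) ^ k) 0 (act (-1) 0 0 1 x)) := by
  have hp0 : (p : ℤ) ≠ 0 := by exact_mod_cast hp.ne_zero
  have h := hx.scale (a := 0) (b := 1) (c := (p : ℤ) ^ k) (d := 0) (-1) (by norm_num)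
    (by
      have : (p : ℤ) ^ k ≠ 0 := pow_ne_zero _ hp0
      intro h
      apply this
      linarith)
  have e1 : act (-1) 0 0 1 (act 0 (-1) ((p : ℤ) ^ k) 0 x) =
      act (-1 * 0) (-1 * 1) (-1 * (p : ℤ) ^ k) (-1 * 0) x := by
    rw [act_act]
    congr 1 <;> ring
  have e2 : act 0 (-1) ((p : ℤ) ^ k) 0 (act (-1) 0 0 1 x) = act 0 1 ((p : ℤ) ^ k) 0 x := by
    rw [act_act]
    congr 1 <;> ring
  rw [e1, e2]
  exact h

theorem hKs : SPKs := by
  intro ha hc he p hp hNex hEvU m G hm hG hWG hSG hev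
  have hm2 : 2 ≤ m := by omega
  have hm1 : 2 ≤ m - 1 := by omega
  have hp0 : (p : ℤ) ≠ 0 := by exact_mod_cast hp.ne_zero
  have hpC : (p : ℂ) ≠ 0 := by exact_mod_cast hp.ne_zero
  have oT := op_tS p hp
  have oS := op_sS p m
  have oW : Op (act 0 (-1) ((p : ℤ) ^ m) 0) := op_act (dwp hp m)
  have oW' : Op (act 0 (-1) ((p : ℤ) ^ (m - 1)) 0) := op_act (dwp hp (m - 1))
  have ox : Op (act (-1) 0 0 1) := op_act (by norm_num)
  set W : (ℤ → ℤ → ℂ) → (ℤ → ℤ → ℂ) := act 0 (-1) ((p : ℤ) ^ m) 0 with hW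
  set W' : (ℤ → ℤ → ℂ) → (ℤ → ℤ → ℂ) := act 0 (-1) ((p : ℤ) ^ (m - 1)) 0 with hW'
  set x : (ℤ → ℤ → ℂ) → (ℤ → ℤ → ℂ) := act (-1) 0 0 1 with hx
  -- the averages
  have oM : Op (fun y => (1 / (p : ℂ)) • tS p y) :=
    { add := fun y z => by rw [oT.add, smul_add]
      sub := fun y z => by rw [oT.sub, smul_sub]
      smul := fun s y => by rw [oT.smul, smul_comm]
      cong := fun h => (oT.cong h).smul _ }
  have oN : Op (fun y => (1 / (p : ℂ)) • sS p m y) :=
    { add := fun y z => by rw [oS.add, smul_add]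
      sub := fun y z => by rw [oS.sub, smul_sub]
      smul := fun s y => by rw [oS.smul, smul_comm]
      cong := fun h => (oS.cong h).smul _ }
  set M : (ℤ → ℤ → ℂ) → (ℤ → ℤ → ℂ) := fun y => (1 / (p : ℂ)) • tS p y with hM
  set N : (ℤ → ℤ → ℂ) → (ℤ → ℤ → ℂ) := fun y => (1 / (p : ℂ)) • sS p m y with hN
  have mono : ∀ y : ℤ → ℤ → ℂ, SymP p 0 (m - 1) y → SymP p 0 m y := fun y h =>
    ⟨h.1, fun a b c d hd hb hcc =>
      h.2 a b c d hd hb ((pow_dvd_pow _ (Nat.sub_le m 1)).trans hcc)⟩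
  have sM : ∀ y : ℤ → ℤ → ℂ, SymP p 0 m y → SymP p 0 m (M y) := fun y hy =>
    SymP.smul _ (ha p hp m y hm2 hy).1
  have lN : ∀ y : ℤ → ℤ → ℂ, SymP p 0 m y → SymP p 0 (m - 1) (N y) := fun y hy =>
    SymP.smul _ (ha p hp m y hm2 hy).2.1
  have WM : ∀ y : ℤ → ℤ → ℂ, SymP p 0 m y → EqC (W (M y)) (N (W y)) := by
    intro y hy
    have h := ((hc p hp m y hm hy).2.2.2.2.1).symm.smul (1 / (p : ℂ))
    exact h
  have WN : ∀ y : ℤ → ℤ → ℂ, SymP p 0 m y → EqC (W (N y)) (M (W y)) := by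
    intro y hy
    have h := ((hc p hp m y hm hy).2.2.2.1).symm.smul (1 / (p : ℂ))
    exact h
  have xM : ∀ y : ℤ → ℤ → ℂ, SymP p 0 m y → EqC (x (M y)) (M (x y)) := by
    intro y hy
    have h := ((hc p hp m y hm hy).2.2.2.2.2.1).symm.smul (1 / (p : ℂ))
    exact h
  have xN : ∀ y : ℤ → ℤ → ℂ, SymP p 0 m y → EqC (x (N y)) (N (x y)) := by
    intro y hy
    have h := ((hc p hp m y hm hy).2.2.2.2.2.2.1).symm.smul (1 / (p : ℂ))
    exact h
  have MN : ∀ y : ℤ → ℤ → ℂ, SymP p 0 m y → EqC (M (N y)) (N (M y)) := by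
    intro y hy
    have h := (((hc p hp m y hm hy).2.2.1).smul (1 / (p : ℂ))).smul (1 / (p : ℂ))
    have e1 : M (N y) = (1 / (p : ℂ)) • ((1 / (p : ℂ)) • tS p (sS p m y)) := by
      show (1 / (p : ℂ)) • tS p ((1 / (p : ℂ)) • sS p m y) = _
      rw [oT.smul]
    have e2 : N (M y) = (1 / (p : ℂ)) • ((1 / (p : ℂ)) • sS p m (tS p y)) := by
      show (1 / (p : ℂ)) • sS p m ((1 / (p : ℂ)) • tS p y) = _
      rw [oS.smul]
    rw [e1, e2]
    exact h
  -- the symbols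
  set A : ℤ → ℤ → ℂ := M G with hA
  set B : ℤ → ℤ → ℂ := G - A with hB
  set C : ℤ → ℤ → ℂ := N B with hC
  set E : ℤ → ℤ → ℂ := B - C with hE
  have sA : SymP p 0 m A := sM G hG
  have sB : SymP p 0 m B := SymP_sub hG sA
  have lC : SymP p 0 (m - 1) C := lN B sB
  have sC : SymP p 0 m C := mono C lC
  have sE : SymP p 0 m E := SymP_sub sB sC
  -- averages
  have tB : EqC (tS p B) 0 := proj oT hpC (hc p hp m G hm hG).1
  have sEE : EqC (sS p m E) 0 := proj oS hpC (hc p hp m B hm sB).2.1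
  have tC : EqC (tS p C) 0 := by
    show EqC (tS p ((1 / (p : ℂ)) • sS p m B)) 0
    rw [oT.smul]
    have h1 := (vanish oS (hc p hp m B hm sB).2.2.1 tB).smul (1 / (p : ℂ))
    rwa [smul_zero] at h1
  have tE : EqC (tS p E) 0 := by
    rw [hE, oT.sub]
    have := tB.sub tC
    rwa [sub_zero] at this
  -- `W`
  have WA : EqC (W A) (-N G) := by
    have h := (WM G hG).trans (oN.cong hWG)
    have e : N (-G) = -N G := by
      have := oN.smul (-1) G
      simpa only [neg_smul, one_smul] using this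
    rw [e] at h
    exact h
  have WB : EqC (W B) (-(G - N G)) := by
    have h := hWG.sub WA
    have e : W B = W G - W A := oW.sub G A
    rw [e]
    rw [show -(G - N G) = -G - -N G by abel]
    exact h
  have WC : EqC (W C) (-(M G - M (N G))) := by
    have h := (WN B sB).trans (oM.cong WB)
    have e : M (-(G - N G)) = -(M G - M (N G)) := by
      have h1 := oM.smul (-1) (G - N G)
      have h2 := oM.sub G (N G)
      simp only [neg_smul, one_smul] at h1
      rw [h1, h2]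
    rw [e] at h
    exact h
  have WE : EqC (W E) (-E) := by
    have h := WB.sub WC
    have e0 : W E = W B - W C := oW.sub B C
    rw [e0]
    refine h.trans ?_
    have h2 : EqC (-(G - N G) - -(M G - M (N G))) (-(G - N G) - -(M G - N (M G))) :=
      (EqC.refl _).sub ((EqC.refl (M G)).sub (MN G hG)).neg
    refine h2.trans ?_
    have e : -(G - N G) - -(M G - N (M G)) = -E := by
      have h3 : C = N G - N (M G) := oN.sub G (M G)
      rw [hE, h3, hB, hA]
      abel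
    rw [e]
    exact EqC.refl _
  -- `*`
  have SA : EqC (x A) A := (xM G hG).trans (oM.cong hSG)
  have SB : EqC (x B) B := by
    have h := hSG.sub SA
    have e : x B = x G - x A := ox.sub G A
    rw [e]
    exact h
  have SC : EqC (x C) C := (xN B sB).trans (oN.cong SB)
  have SE : EqC (x E) E := by
    have h := SB.sub SC
    have e : x E = x B - x C := ox.sub B C
    rw [e]
    exact h
  -- levels
  have lA : SymP p 0 (m - 1) (W A) := SymP.smul (1 / (p : ℂ)) (ha p hp m G hm2 hG).2.2.1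
  set A' : ℤ → ℤ → ℂ := W A with hA'
  have sum : G = A + C + E := by
    rw [hE, hB]
    abel
  have E0 : EqC E 0 := by
    refine hNex m (C - A') E hm (SymP_sub lC lA) ⟨sE, tE, sEE, WE, SE⟩ (fun ls hls => ?_)
    have h1 := hev ls hls
    rw [sum, evw_add, evw_add] at h1
    have h2 : evw 1 ls A' = -evw 1 ls A := (he p hp ℂ _ m A sA ls hls).1
    rw [evw_sub, h2]
    linear_combination h1
  have GAC : EqC G (A + C) := by
    have h3 : EqC (A + C + E) (A + C + 0) := (EqC.refl (A + C)).add E0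
    rw [← sum, add_zero] at h3
    exact h3
  -- the potential `ω`
  set ω : ℤ → ℤ → ℂ := (1 / 2 : ℂ) • (C - A') with hω
  have lω : SymP p 0 (m - 1) ω := SymP.smul _ (SymP_sub lC lA)
  have SA' : EqC (x A') A' := by
    have h1 : EqC (W (x A)) (x A') := (hc p hp m A hm sA).2.2.2.2.2.2.2.2.2
    exact h1.symm.trans (oW.cong SA)
  have Sω : EqC (x ω) ω := by
    have e : x ω = (1 / 2 : ℂ) • (x C - x A') := by
      rw [hω, ox.smul, ox.sub]
    rw [e]
    exact (SC.sub SA').smul (1 / 2 : ℂ)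
  have hGω : EqC G (ω - W ω) := by
    have WW' : EqC (W A') A := (hc p hp m A hm sA).2.2.2.2.2.2.2.1
    have h1 : EqC (W ω) ((1 / 2 : ℂ) • (W C - A)) := by
      have e : W ω = (1 / 2 : ℂ) • (W C - W A') := by
        rw [hω, oW.smul, oW.sub]
      rw [e]
      exact ((EqC.refl (W C)).sub WW').smul (1 / 2 : ℂ)
    have h2 : EqC (ω - W ω) (ω - (1 / 2 : ℂ) • (W C - A)) := (EqC.refl ω).sub h1
    have h3 : ω - (1 / 2 : ℂ) • (W C - A) = (1 / 2 : ℂ) • ((A + C) - W (A + C)) := by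
      rw [hω, oW.add, ← hA', ← smul_sub]
      congr 1
      abel
    have h4 : EqC ((1 / 2 : ℂ) • (G - W G)) ((1 / 2 : ℂ) • ((A + C) - W (A + C))) :=
      (GAC.sub (oW.cong GAC)).smul (1 / 2 : ℂ)
    have h5 : EqC ((1 / 2 : ℂ) • (G - W G)) ((1 / 2 : ℂ) • (G - -G)) :=
      ((EqC.refl G).sub hWG).smul (1 / 2 : ℂ)
    have h6 : (1 / 2 : ℂ) • (G - -G) = G := by
      rw [sub_neg_eq_add, ← two_smul ℂ G, smul_smul]
      norm_num
    rw [h6] at h5
    rw [h3] at h2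
    exact h5.symm.trans (h4.trans h2.symm)
  set T : ℤ → ℤ → ℂ := W' ω with hT
  have lT : SymP p 0 (m - 1) T := (ha p hp (m - 1) ω hm1 lω).2.2.2.1
  have uT : act (p : ℤ) 0 0 1 T = W ω := by
    show act (p : ℤ) 0 0 1 (act 0 (-1) ((p : ℤ) ^ (m - 1)) 0 ω) = act 0 (-1) ((p : ℤ) ^ m) 0 ω
    rw [act_act]
    have e : (p : ℤ) ^ (m - 1) * p + 0 * 0 = (p : ℤ) ^ m := by
      rw [← pow_succ, Nat.sub_add_cancel (by omega : 1 ≤ m)]
      ring
    rw [e]
    congr 1 <;> ring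
  have WT' : EqC (W' T) ω := WW hp (m - 1) lω.1
  have ST : EqC (x T) T := (SW hp (m - 1) lω.1).trans (oW'.cong Sω)
  have hfin : EqC G ((ω - T) + (act (p : ℤ) 0 0 1 (-T) - (-T))) := by
    refine hGω.trans (EqC.of_eq fun a b _ => ?_)
    rw [act_neg, uT]
    simp only [Pi.add_apply, Pi.sub_apply, Pi.neg_apply]
    ring
  refine ⟨ω - T, -T, SymP_sub lω lT, SymP.neg lT, ?_, ?_, fun ls hls => ?_, hfin⟩
  · have e : W' (ω - T) = W' ω - W' T := oW'.sub ω T
    rw [e]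
    refine ((EqC.refl (W' ω)).sub WT').trans (EqC.of_eq fun a b _ => ?_)
    simp only [Pi.sub_apply, Pi.neg_apply, ← hT]
    ring
  · have e : x (ω - T) = x ω - x T := ox.sub ω T
    rw [e]
    exact Sω.sub ST
  · have h1 := evw_congr' p ls hls hfin
    have h2 := evw_sub ls (act (p : ℤ) 0 0 1 (-T)) (-T)
    rw [(hEvU ℂ _ (m - 1) (-T) (SymP.neg lT)).2 ls hls, sub_self] at h2
    rw [hev ls hls, evw_add, h2, add_zero] at h1
    exact h1.symm

end Pool.Agent.Helper71.W5
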